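import Pool.Agent.H83.V.TW
import Pool.Agent.H40.LF.SDN

/-!
Theorem W, row WSD: the primes with a flag on the components.
-/

set_option autoImplicit false

open MeasureTheory ProbabilityTheory Filter Topology Finset
open scoped Nat ENNReal

namespace Pool.Agent.H57.W

open Pool.Agent.H83.V Pool.Agent.H28.LF Pool.Agent.H40.LF
open Pool.Agent.H24.T2 (Pset)
open Pool.Agent.H67.AG (avgP)

open Classical in
theorem pf_WSD : T_WSD := by
  intro PX P F κ _ γ δ k hPX hS hF hFi hB hC hne hδ
  have := hS.prob
  have hgm : Measurable fun ω => avgP 2 k (sY F (κ ω)) := by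
    unfold avgP
    exact (Finset.measurable_sum _ fun p _ => meas_sY κ F hF p).div_const _
  have hSm : MeasurableSet {ω | γ ≤ avgP 2 k (sY F (κ ω))} :=
    measurableSet_le measurable_const hgm
  refine ⟨hSm, ?_⟩
  have hEm : MeasurableSet {ω : Yi | γ ≤ avgP 2 k fun p => if xiY p ω ∈ F then 1 else 0} := by
    apply measurableSet_le measurable_const
    unfold avgP
    refine (Finset.measurable_sum _ fun p _ => ?_).div_const _
    exact Measurable.ite (meas_xiY p hF) measurable_const measurable_const
  set E : Set Yi := {ω : Yi | γ ≤ avgP 2 k fun p => if xiY p ω ∈ F then 1 else 0} with hE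
  set S : Set Yi := {ω | γ ≤ avgP 2 k (sY F (κ ω))} with hSdef
  have hkey : ∀ᵐ ω ∂P, (κ ω).real E = S.indicator (fun _ => (1 : ℝ)) ω := by
    filter_upwards [hC] with ω hω
    have hp1 : ∀ p ∈ Pset 2 k, ∀ᵐ ω' ∂(κ ω), (if xiY p ω' ∈ F then (1 : ℝ) else 0) =
        sY F (κ ω) p := by
      intro p hp
      have hpp : p.Prime := (mem_filter.1 hp).2.1
      have hm : MeasurableSet (xiY p ⁻¹' F) := meas_xiY p hF
      rcases zero_one (κ ω) hω F hF hFi p hpp with h | h
      · have h0 : (κ ω) (xiY p ⁻¹' F) = 0 := by
          rwa [measureReal_eq_zero_iff] at h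
        have h1 : ∀ᵐ ω' ∂(κ ω), ω' ∉ xiY p ⁻¹' F := measure_eq_zero_iff_ae_notMem.mp h0
        filter_upwards [h1] with ω' hω'
        have h2 : xiY p ω' ∉ F := hω'
        rw [if_neg h2]
        simp [sY, h]
      · have hpr := hω.prob
        have h0 : ∀ᵐ ω' ∂(κ ω), ω' ∈ xiY p ⁻¹' F := by
          have h3 : (κ ω).real (xiY p ⁻¹' F)ᶜ = 0 := by
            rw [probReal_compl_eq_one_sub hm, h, sub_self]
          have h4 : (κ ω) (xiY p ⁻¹' F)ᶜ = 0 := by
            rwa [measureReal_eq_zero_iff] at h3
          exact mem_ae_iff.mpr h4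
        filter_upwards [h0] with ω' hω'
        have h2 : xiY p ω' ∈ F := hω'
        rw [if_pos h2]
        simp [sY, h]
    have hall : ∀ᵐ ω' ∂(κ ω), (avgP 2 k fun p => if xiY p ω' ∈ F then (1 : ℝ) else 0) =
        avgP 2 k (sY F (κ ω)) := by
      have h1 : ∀ᵐ ω' ∂(κ ω), ∀ p ∈ Pset 2 k, (if xiY p ω' ∈ F then (1 : ℝ) else 0) =
          sY F (κ ω) p := (ae_ball_iff (Pset 2 k).countable_toSet).mpr hp1
      filter_upwards [h1] with ω' hω'
      unfold avgP
      rw [sum_congr rfl hω']
    by_cases hωS : ω ∈ S
    · rw [Set.indicator_of_mem hωS]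
      have h1 : E =ᵐ[κ ω] Set.univ := by
        filter_upwards [hall] with ω' hω'
        apply propext
        constructor
        · intro _
          trivial
        · intro _
          show γ ≤ _
          rw [hω']
          exact hωS
      rw [measureReal_congr h1]
      simp
    · rw [Set.indicator_of_notMem hωS]
      have h1 : E =ᵐ[κ ω] (∅ : Set Yi) := by
        filter_upwards [hall] with ω' hω'
        apply propext
        constructor
        · intro h
          apply hωS
          show γ ≤ _
          rw [← hω']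
          exact h
        · intro h
          exact absurd (show ω' ∈ (∅ : Set Yi) from h) (Set.notMem_empty ω')
      rw [measureReal_congr h1]
      simp
  have h2 : ∫ ω, (κ ω).real E ∂P = P.real S := by
    rw [integral_congr_ae hkey, integral_indicator hSm]
    simp
  rw [← h2, int_kreal P κ hB hEm]
  exact hδ

end Pool.Agent.H57.W
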