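import Pool.Agent.H83.V.TW
import Pool.Agent.H67.V.VWN

/-!
Theorem W, row WWN: windows.
-/

set_option autoImplicit false

open MeasureTheory ProbabilityTheory Filter Topology Finset
open scoped Nat ENNReal

namespace Pool.Agent.H57.W

open Pool.Agent.H83.V

open Classical in
/-- WWN: disjoint long windows on which the statement fails. -/
theorem pf_WWN : T_WWN := by
  intro z m I θ ρ hρ hn
  unfold ThmW at hn
  push Not at hn
  set Q : ℕ → ℕ → Prop := fun K N => θ * N <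
    (((Icc 1 N).filter fun n => Gn z m I (θ ^ 4 / 10 ^ 19) K n).card : ℝ) with hQ
  set f : ℕ → ℕ → ℝ := fun K n => if Q K n then (1 : ℝ) else 0 with hf
  have hsum : ∀ K x y : ℕ, ∑ N ∈ (Icc x y).filter (fun N : ℕ => θ * N <
      (((Icc 1 N).filter fun n => Gn z m I (θ ^ 4 / 10 ^ 19) K n).card : ℝ)),
      (1 : ℝ) / N = ∑ n ∈ Icc x y, f K n / n := by
    intro K x y
    rw [Finset.sum_filter]
    refine Finset.sum_congr rfl fun n _ => ?_
    simp only [hf, hQ]
    split_ifs <;> simp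
  have hf0 : ∀ K n, 0 ≤ f K n := by
    intro K n
    simp only [hf]
    split_ifs <;> norm_num
  have hf1 : ∀ K n, f K n ≤ 1 := by
    intro K n
    simp only [hf]
    split_ifs <;> norm_num
  have hn' : ∀ K₀ : ℕ, ∃ K, K₀ ≤ K ∧ ∀ C : ℕ, ∃ x y : ℕ, 0 < x ∧ C * x ≤ y ∧
      ρ * Real.log ((y : ℝ) / x) < ∑ n ∈ Icc x y, f K n / n := by
    intro K₀
    obtain ⟨K, h1, h2⟩ := hn K₀
    refine ⟨K, h1, fun C => ?_⟩
    obtain ⟨x, y, h3, h4, h5⟩ := h2 C
    refine ⟨x, y, h3, h4, ?_⟩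
    rw [← hsum]
    exact h5
  have st := Pool.Agent.H67.V.win_step f hf0 hf1 ρ hρ hn'
  choose H x y h1 h2 h3 h4 h5 h6 using st
  let Y : ℕ → ℕ := fun j => Nat.rec (y 0 0) (fun k r => y (k + 1) r) j
  let b : ℕ → ℕ := fun j => Nat.rec 0 (fun k _ => Y k) j
  have hY : ∀ j, Y j = y j (b j) := by
    intro j
    cases j with
    | zero => rfl
    | succ k => rfl
  refine ⟨fun j => H j (b j), fun j => x j (b j), fun j => y j (b j),
    fun j => h1 _ _, fun j => ⟨h2 _ _, h3 _ _, ?_⟩, fun j => h5 _ _, fun j => ?_⟩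
  · have : b (j + 1) = y j (b j) := by
      rw [← hY j]
    show y j (b j) < x (j + 1) (b (j + 1))
    rw [this]
    exact h4 _ _
  · rw [hsum]
    exact h6 _ _

end Pool.Agent.H57.W
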